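import Pool.Agent.V1131.ChromE
import Pool.Agent.V1131.CpetOne

/-! # A CPET tree of maximum degree 4 and odd order with positive coefficient of `e_(3,2^k)`

The spider `S(15, 12, 2, 1)` on 31 vertices. -/

namespace Pool.Agent.Results.MP_fedadc_co.NonnegCoeff

open Pool.Agent.V1131.ChromE Pool.Agent.V1131.CpetOne

/-- `T` has a connected partition of type `l`: a set partition of the vertex set whose blocks
induce connected subgraphs and whose block sizes are the parts of `l` (so `b_l ≥ 1`). -/
def HasType {V : Type} [Fintype V] [DecidableEq V] (T : SimpleGraph V)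
    (l : Nat.Partition (Fintype.card V)) : Prop :=
  ∃ P : Finpartition (Finset.univ : Finset V),
    (∀ B ∈ P.parts, (T.induce (B : Set V)).Connected) ∧ P.parts.val.map Finset.card = l.parts

/-- CPET trees: trees with a connected partition of every type. -/
def CPET {V : Type} [Fintype V] [DecidableEq V] (T : SimpleGraph V) : Prop :=
  T.IsTree ∧ ∀ l : Nat.Partition (Fintype.card V), HasType T l

/-- parents in the spider, on natural numbers -/
private def pn (v : ℕ) : ℕ := if v = 0 ∨ v = 1 ∨ v = 16 ∨ v = 28 ∨ v = 30 then 0 else v - 1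

private lemma pn_le (v : ℕ) : pn v ≤ v := by
  unfold pn; split_ifs <;> omega

private lemma pn_lt (v : ℕ) (hv : 0 < v) : pn v < v := by
  unfold pn; split_ifs <;> omega

private lemma zt : (Zt pn 30 (fun _ => w3)).im = -7 := by decide +kernel

private lemma par_parF (v : Fin 31) : par v = parF pn pn_le 30 v := by
  apply Fin.ext
  rw [par_val]
  rfl

private lemma cond_iff {N : ℕ} (κ : Fin 31 → Fin N) : (∀ u v, spider.Adj u v → κ u ≠ κ v) ↔
    ∀ v : Fin 31, v ≠ 0 → κ v ≠ κ (parF pn pn_le 30 v) := by
  constructor
  · intro h v hv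
    rw [← par_parF]
    refine h v (par v) ⟨fun e => ?_, Or.inl rfl⟩
    have := par_lt v hv
    rw [← e] at this
    exact lt_irrefl _ this
  · intro h u v huv
    obtain ⟨hne, hp | hp⟩ := huv
    · have hu : u ≠ 0 := by
        rintro rfl
        apply hne
        rw [← hp]
        decide
      have := h u hu
      rwa [← par_parF, hp] at this
    · have hv : v ≠ 0 := by
        rintro rfl
        apply hne
        rw [← hp]
        decide
      have := h v hv
      rw [← par_parF, hp] at this
      exact this.symm

private lemma sum_eq (M : ℕ) : (∑ κ ∈ properCol spider (M + 3), ∏ v, ofT (M + 3) w3 (κ v)) =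
    Zt pn 30 (fun _ => w3) := by
  rw [← Sm_eq_Zt pn pn_le pn_lt M 30 (fun _ => w3)]
  unfold properCol Sm
  rw [Finset.sum_filter]
  refine Finset.sum_congr rfl fun κ _ => ?_
  by_cases h : ∀ u v, spider.Adj u v → κ u ≠ κ v
  · rw [if_pos h, if_pos ((cond_iff κ).mp h)]
  · rw [if_neg h, if_neg (fun h' => h ((cond_iff κ).mpr h'))]

/-- There is a CPET tree `T` of maximum degree 4 with an odd number `n = 31` of vertices for which
the coefficient of `e_(3, 2^((n-3)/2))` in the chromatic symmetric function (taken in any number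
`N ≥ n` of variables) equals `7`; in particular it is nonnegative. -/
theorem result : ∃ (T : SimpleGraph (Fin 31)) (_ : DecidableRel T.Adj), CPET T ∧
    T.maxDegree = 4 ∧ Odd (Fintype.card (Fin 31)) ∧
    ∃ μ : Nat.Partition (Fintype.card (Fin 31)),
      μ.parts = 3 ::ₘ Multiset.replicate ((Fintype.card (Fin 31) - 3) / 2) 2 ∧
      ∀ N, 31 ≤ N → eCoeff T N μ = 7 := by
  refine ⟨spider, inferInstance, ⟨spider_tree, fun l => ?_⟩, ?_, ?_,
    ⟨3 ::ₘ Multiset.replicate ((Fintype.card (Fin 31) - 3) / 2) 2, ?_, ?_⟩, rfl, ?_⟩
  · exact cp_all l.parts (fun x hx => l.parts_pos hx) (by rw [l.parts_sum]; rfl)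
  · apply le_antisymm
    · apply SimpleGraph.maxDegree_le_of_forall_degree_le
      decide +kernel
    · have h := spider.degree_le_maxDegree 0
      have h2 : spider.degree 0 = 4 := by decide +kernel
      rwa [h2] at h
  · decide
  · intro i hi
    rcases Multiset.mem_cons.mp hi with rfl | hi
    · norm_num
    · rw [Multiset.eq_of_mem_replicate hi]; norm_num
  · decide
  · intro N hN
    obtain ⟨M, rfl⟩ : ∃ M, N = M + 3 := ⟨N - 3, by omega⟩
    have h := coeff_eq spider M 14 rfl
    rw [sum_eq, zt] at h
    have : eCoeff spider (M + 3) ⟨3 ::ₘ Multiset.replicate ((Fintype.card (Fin 31) - 3) / 2) 2,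
        by
          intro i hi
          rcases Multiset.mem_cons.mp hi with rfl | hi
          · norm_num
          · rw [Multiset.eq_of_mem_replicate hi]; norm_num, by decide⟩ =
        (ePoly spider (M + 3)).coeff (d0 M 14) := rfl
    rw [this]
    norm_num at h
    exact h

end Pool.Agent.Results.MP_fedadc_co.NonnegCoeff
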